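import Pool.Agent.helper36.UT.Spec

set_option autoImplicit false

open Filter Polynomial FirstOrder FirstOrder.Language

namespace Pool.Agent.UnivT

theorem FOA_univ : Theory.IsUniversal UnivTh := ⟨fun _ h => h.1⟩

/-- the matrix -/
def FOA_B : Lb.BoundedFormula Empty 4 := matrix (tVar 1)

theorem FOA_lt (x y : Lb.Term (Empty ⊕ Fin 4)) : (fLt x y).IsQF :=
  (BoundedFormula.IsAtomic.rel (L := Lb) Rl.lt ![x, y]).isQF

theorem FOA_Bqf : FOA_B.IsQF :=
  (FOA_lt _ _).inf (((FOA_lt _ _).inf (FOA_lt _ _)).inf (BoundedFormula.IsAtomic.equal _ _).isQF)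

theorem FOA_rB (v : Empty → ℤ) (xs : Fin 4 → ℤ) : FOA_B.Realize v xs ↔
    xs 0 < xs 1 ∧ ((1 < xs 2 ∧ 1 < xs 3) ∧ xs 2 * xs 3 = 2 ^ ((2 : ℤ) ^ (xs 1).toNat).toNat + 1) := by
  unfold FOA_B matrix
  rw [BoundedFormula.realize_inf, BoundedFormula.realize_inf, BoundedFormula.realize_inf,
    BoundedFormula.realize_bdEqual]
  exact Iff.rfl

theorem FOA_tow (h : ℕ) : h < tow h := by
  induction h with
  | zero => exact Nat.one_pos
  | succ h ih =>
    have h1 : tow h < 2 ^ tow h := Nat.lt_two_pow_self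
    show h + 1 < 2 ^ tow h
    omega

theorem FOA_lin : RR fun H => (tow H : ℤ) := by
  refine ⟨0, 0, 1, fun _ => 1, Eventually.of_forall fun H => ?_⟩
  simp

theorem FOA_two (n : ℤ) : ((2 : ℤ) ^ n.toNat).toNat = 2 ^ n.toNat := by
  have : ((2 : ℤ) ^ n.toNat) = ((2 ^ n.toNat : ℕ) : ℤ) := by push_cast; rfl
  rw [this, Int.toNat_natCast]

theorem FOA (hLGD : LGD_stmt) (hTRM : TRM_stmt) (hFAC : FAC_stmt) : FOA_stmt := by
  intro hN
  have hu := FOA_univ
  let U : Ultrafilter ℕ := hyperfilter ℕ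
  have hUle : (U : Filter ℕ) ≤ atTop := by
    rw [← Nat.cofinite_eq_atTop]
    exact hyperfilter_le_cofinite
  let P : Type := (U : Filter ℕ).Product (fun _ => ℤ)
  let x0 : P := ((fun H : ℕ => (tow H : ℤ)) : (U : Filter ℕ).Product (fun _ => ℤ))
  let S : Lb.Substructure P := Substructure.closure Lb {x0}
  have hP : P ⊨ UnivTh := ⟨fun φ hφ => (Ultraproduct.sentence_realize φ).mpr (Eventually.of_forall fun _ => hφ.2)⟩
  have hx0 : x0 ∈ S := Substructure.subset_closure (Set.mem_singleton _)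
  have hne : Nonempty S := ⟨⟨x0, hx0⟩⟩
  have hS : S ⊨ infinitelyManyComposite := hN.realize_sentence S
  have h2 := hS ⟨x0, hx0⟩
  rw [BoundedFormula.realize_ex] at h2
  obtain ⟨n, hn⟩ := h2
  rw [BoundedFormula.realize_ex] at hn
  obtain ⟨x, hx⟩ := hn
  rw [BoundedFormula.realize_ex] at hx
  obtain ⟨y, hy⟩ := hx
  have hterm : ∀ z : S, ∃ g : ℕ → ℤ, RR g ∧ (z : P) = (g : (U : Filter ℕ).Product (fun _ => ℤ)) := by
    intro z
    obtain ⟨t, ht⟩ := Substructure.mem_closure_iff_exists_term.mp z.2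
    have hg := hTRM (β := ({x0} : Set P)) (fun _ H => (tow H : ℤ)) (fun _ => FOA_lin) t
    refine ⟨_, hg, ?_⟩
    rw [← ht]
    have e : ((↑) : ({x0} : Set P) → P) = fun i : ({x0} : Set P) =>
        (((fun _ m => (tow m : ℤ) : ({x0} : Set P) → ℕ → ℤ) i : ℕ → ℤ) : (U : Filter ℕ).Product (fun _ => ℤ)) := by
      funext i
      exact i.2
    rw [e]
    exact Ultraproduct.term_realize_cast (M := fun _ : ℕ => ℤ) (u := U) _ t
  obtain ⟨gn, hgn1, hgn⟩ := hterm n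
  obtain ⟨gx, hgx1, hgx⟩ := hterm x
  obtain ⟨gy, hgy1, hgy⟩ := hterm y
  have hy' : FOA_B.Realize (default : Empty → S)
      (Fin.snoc (Fin.snoc (Fin.snoc (Fin.snoc default ⟨x0, hx0⟩ : Fin 1 → S) n : Fin 2 → S) x : Fin 3 → S) y : Fin 4 → S) := hy
  rw [← FOA_Bqf.realize_embedding S.subtype] at hy'
  have e1 : (S.subtype ∘ (default : Empty → S)) =
      fun i : Empty => (((fun _ _ => 0 : Empty → ℕ → ℤ) i : ℕ → ℤ) : (U : Filter ℕ).Product (fun _ => ℤ)) := by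
    funext i
    exact i.elim
  have e2 : (S.subtype ∘ (Fin.snoc (Fin.snoc (Fin.snoc (Fin.snoc default ⟨x0, hx0⟩ : Fin 1 → S) n : Fin 2 → S) x : Fin 3 → S) y : Fin 4 → S)) =
      fun i : Fin 4 => (((![fun m => (tow m : ℤ), gn, gx, gy] : Fin 4 → ℕ → ℤ) i : ℕ → ℤ) :
        (U : Filter ℕ).Product (fun _ => ℤ)) := by
    funext i
    fin_cases i
    · rfl
    · exact hgn
    · exact hgx
    · exact hgy
  rw [e1, e2] at hy'
  have h3 := (Ultraproduct.boundedFormula_realize_cast (M := fun _ : ℕ => ℤ) (u := U) FOA_B _ _).mp hy'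
  have h4 : ∀ᶠ H : ℕ in (U : Filter ℕ), (tow H : ℤ) < gn H ∧ ((1 < gx H ∧ 1 < gy H) ∧
      gx H * gy H = 2 ^ (2 ^ (gn H).toNat) + 1) := by
    refine h3.mono fun H hH => ?_
    rw [FOA_rB] at hH
    have hH' : (tow H : ℤ) < gn H ∧ ((1 < gx H ∧ 1 < gy H) ∧
      gx H * gy H = 2 ^ ((2 : ℤ) ^ (gn H).toNat).toNat + 1) := hH
    rw [FOA_two] at hH'
    exact hH'
  have h5 : ∃ᶠ H : ℕ in atTop, (tow H : ℤ) < gn H ∧ ((1 < gx H ∧ 1 < gy H) ∧
      gx H * gy H = 2 ^ (2 ^ (gn H).toNat) + 1) := h4.frequently.filter_mono hUle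
  obtain ⟨k, hk⟩ := hgn1
  have hn1 : Tendsto gn atTop atTop := by
    rcases (hLGD k).2.2.2 gn hk with ⟨c, hc⟩ | h | h
    · exfalso
      obtain ⟨H, ⟨h6, _⟩, h7, h8⟩ := (h5.and_eventually (hc.and (eventually_ge_atTop c.toNat))).exists
      have h9 := FOA_tow H
      have h10 : ((H : ℕ) : ℤ) < (tow H : ℤ) := by exact_mod_cast h9
      rw [h7] at h6
      have h11 : c ≤ (c.toNat : ℤ) := Int.self_le_toNat c
      have h12 : ((c.toNat : ℕ) : ℤ) ≤ (H : ℤ) := by exact_mod_cast h8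
      linarith
    · exact h
    · exfalso
      obtain ⟨H, ⟨h6, _⟩, h7⟩ := (h5.and_eventually (h.eventually (eventually_le_atBot 0))).exists
      have h10 : (0 : ℤ) ≤ (tow H : ℤ) := Int.natCast_nonneg _
      linarith
  have h6 : ∃ᶠ H : ℕ in atTop, gx H * gy H = 2 ^ (2 ^ (gn H).toNat) + 1 := h5.mono fun H hH => hH.2.2
  have h7 := hFAC gx gy gn hgx1 hgy1 ⟨k, hk⟩ hn1 h6
  obtain ⟨H, ⟨_, ⟨h8, h9⟩, _⟩, h10⟩ := (h5.and_eventually h7).exists
  rcases h10 with h11 | h11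
  · rw [abs_of_pos (by linarith)] at h11
    linarith
  · rw [abs_of_pos (by linarith)] at h11
    linarith

end Pool.Agent.UnivT
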